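import Pool.Agent.Helper12_WBX.Stmts

set_option autoImplicit false

/-! GRD: formulas are simultaneously nonzero at a point of the grid. -/

namespace Pool.Agent.WBX.H32

open Pool.Agent.Helper78_ACIT Pool.Agent.TRN Matrix

theorem eval_map {A B : Type} [CommRing A] [CommRing B] (φ : A →+* B) (x : ℕ → A) (f : Fm) :
    φ (f.eval x) = f.eval (fun v => φ (x v)) := by
  induction f with
  | zero => simp [Fm.eval]
  | one => simp [Fm.eval]
  | var v => simp [Fm.eval]
  | add f g hf hg => simp [Fm.eval, hf, hg]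
  | sub f g hf hg => simp [Fm.eval, hf, hg]
  | mul f g hf hg => simp [Fm.eval, hf, hg]

/-- The polynomial variables. -/
noncomputable def xS (S : Finset ℕ) (b : ℕ → ℕ) (v : ℕ) : MvPolynomial S ℚ :=
  if h : v ∈ S then MvPolynomial.X ⟨v, h⟩ else MvPolynomial.C (b v : ℚ)

theorem degreeOf_neg_le {σ : Type} (i : σ) (p : MvPolynomial σ ℚ) :
    (-p).degreeOf i ≤ p.degreeOf i := by
  have h := MvPolynomial.degreeOf_C_mul_le p i (-1 : ℚ)
  have e : MvPolynomial.C (-1 : ℚ) * p = -p := by
    rw [map_neg, map_one, neg_one_mul]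
  rwa [e] at h

theorem degreeOf_eval (S : Finset ℕ) (b : ℕ → ℕ) (i : S) (f : Fm) :
    (f.eval (xS S b)).degreeOf i ≤ f.reads i := by
  induction f with
  | zero => simp [Fm.eval, Fm.reads]
  | one => simp [Fm.eval, Fm.reads]
  | var v =>
    simp only [Fm.eval, Fm.reads, xS]
    by_cases h : v ∈ S
    · rw [dif_pos h]
      by_cases hv : v = (i : ℕ)
      · rw [if_pos hv]
        have : (⟨v, h⟩ : S) = i := Subtype.ext hv
        rw [this, MvPolynomial.degreeOf_X_self]
      · rw [if_neg hv, MvPolynomial.degreeOf_X_of_ne]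
        intro e
        exact hv (by rw [e])
    · rw [dif_neg h, MvPolynomial.degreeOf_C]
      exact Nat.zero_le _
  | add f g hf hg =>
    simp only [Fm.eval, Fm.reads]
    refine (MvPolynomial.degreeOf_add_le _ _ _).trans (max_le ?_ ?_) <;> omega
  | sub f g hf hg =>
    simp only [Fm.eval, Fm.reads]
    rw [sub_eq_add_neg]
    have h1 := degreeOf_neg_le i (g.eval (xS S b))
    refine (MvPolynomial.degreeOf_add_le _ _ _).trans (max_le ?_ ?_) <;> omega
  | mul f g hf hg =>
    simp only [Fm.eval, Fm.reads]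
    refine (MvPolynomial.degreeOf_mul_le _ _ _).trans ?_
    omega

theorem degreeOf_list (S : Finset ℕ) (b : ℕ → ℕ) (i : S) (fs : List Fm) :
    ((fs.map fun f : Fm => f.eval (xS S b)).prod).degreeOf i ≤ (fs.map (Fm.reads i)).sum := by
  induction fs with
  | nil => simp
  | cons f fs ih =>
    simp only [List.map_cons, List.prod_cons, List.sum_cons]
    refine (MvPolynomial.degreeOf_mul_le _ _ _).trans ?_
    have := degreeOf_eval S b i f
    omega

theorem eval_xS (S : Finset ℕ) (b : ℕ → ℕ) (z : ℕ → ℚ) (hz : ∀ v, v ∉ S → z v = b v) (f : Fm) :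
    MvPolynomial.eval (fun i : S => z i) (f.eval (xS S b)) = f.eval z := by
  rw [eval_map]
  congr 1
  funext v
  simp only [xS]
  by_cases h : v ∈ S
  · rw [dif_pos h, MvPolynomial.eval_X]
  · rw [dif_neg h, MvPolynomial.eval_C, hz v h]

/-- GRD. -/
theorem grd : GrdStmt := by
  classical
  intro fs S b m hm hne
  set P : MvPolynomial S ℚ := (fs.map fun f : Fm => f.eval (xS S b)).prod with hP
  have hP0 : P ≠ 0 := by
    rw [hP]
    apply List.prod_ne_zero
    intro h0
    rw [List.mem_map] at h0
    obtain ⟨f, hf, h0⟩ := h0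
    obtain ⟨y, hy, hy0⟩ := hne f hf
    apply hy0
    rw [← eval_xS S b y hy f, h0, map_zero]
  set T : Finset ℚ := (Finset.range (m + 1)).image (fun n : ℕ => (n : ℚ)) with hT
  have hcard : T.card = m + 1 := by
    rw [hT, Finset.card_image_of_injective _ Nat.cast_injective, Finset.card_range]
  have key : ∃ z : S → ℚ, (∀ i, z i ∈ T) ∧ MvPolynomial.eval z P ≠ 0 := by
    by_contra hcon
    push Not at hcon
    apply hP0
    apply MvPolynomial.eq_zero_of_eval_zero_at_prod_finset P (fun _ => T)
    · intro i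
      rw [hcard]
      have h1 := degreeOf_list S b i fs
      have h2 := hm i i.2
      rw [← hP] at h1
      omega
    · exact hcon
  obtain ⟨z, hz, hz0⟩ := key
  have hz' : ∀ i : S, ∃ n : ℕ, n ≤ m ∧ (n : ℚ) = z i := by
    intro i
    have := hz i
    rw [hT, Finset.mem_image] at this
    obtain ⟨n, hn, h⟩ := this
    exact ⟨n, by rw [Finset.mem_range] at hn; omega, h⟩
  choose c hc hcz using hz'
  refine ⟨fun v => if h : v ∈ S then c ⟨v, h⟩ else b v, ?_, ?_, ?_⟩
  · intro v hv
    simp only
    rw [dif_neg hv]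
  · intro v hv
    simp only
    rw [dif_pos hv]
    exact hc _
  · intro f hf h0
    apply hz0
    rw [hP, map_list_prod, List.map_map]
    apply List.prod_eq_zero
    rw [List.mem_map]
    refine ⟨f, hf, ?_⟩
    simp only [Function.comp]
    set w : ℕ → ℕ := fun v => if h : v ∈ S then c ⟨v, h⟩ else b v with hw
    have h1 : (fun i : S => ((w i : ℕ) : ℚ)) = z := by
      funext i
      rw [← hcz i, hw]
      simp only
      rw [dif_pos i.2]
    have h2 := eval_xS S b (fun v => (w v : ℚ)) (by
      intro v hv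
      simp only [hw]
      rw [dif_neg hv]) f
    rw [h1] at h2
    rw [h2]
    have h3 := eval_map (Int.castRingHom ℚ) (fun v => (w v : ℤ)) f
    rw [h0, map_zero] at h3
    simp only [eq_intCast, Int.cast_natCast] at h3
    exact h3.symm

end Pool.Agent.WBX.H32
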