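import Pool.Agent.Helper12_WBX.Stmts

set_option autoImplicit false

/-! MSG: the messages of the network of a formula. -/

namespace Pool.Agent.WBX.H32

open Pool.Agent.Helper78_ACIT Pool.Agent.TRN Matrix

theorem desc_snoc (f : Fm) (ξ : List Bool) (d : Bool) :
    f.desc (ξ ++ [d]) = (f.desc ξ).bind (Fm.child d) := by
  induction ξ generalizing f with
  | nil =>
    cases h : f.child d <;> simp [Fm.desc, h]
  | cons e ξ ih =>
    cases h : f.child e with
    | none => simp [Fm.desc, h]
    | some g => simp [Fm.desc, h, ih]

theorem one_le_depth (f : Fm) : 1 ≤ f.depth := by
  cases f <;> simp [Fm.depth]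

theorem msg' : MsgStmt := by
  intro F _ x f m
  induction m with
  | zero =>
    intro ξ h
    cases hd : f.desc ξ with
    | none => rfl
    | some g =>
      exact absurd (h g hd) (by have := one_le_depth g; omega)
  | succ m ih =>
    intro ξ h
    have h0 : ∀ d : Bool, (∀ g, f.desc (ξ ++ [d]) = some g → g.depth ≤ m) := by
      intro d g hg
      rw [desc_snoc] at hg
      cases hd : f.desc ξ with
      | none => rw [hd] at hg; simp at hg
      | some u =>
        rw [hd] at hg
        have h1 := h u hd
        cases u with
        | zero => simp [Fm.child] at hg
        | one => simp [Fm.child] at hg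
        | var v => simp [Fm.child] at hg
        | add a b =>
          simp only [Fm.child, Option.bind_some, Option.some.injEq] at hg
          simp only [Fm.depth] at h1
          cases d <;> simp at hg <;> subst hg <;> omega
        | sub a b =>
          simp only [Fm.child, Option.bind_some, Option.some.injEq] at hg
          simp only [Fm.depth] at h1
          cases d <;> simp at hg <;> subst hg <;> omega
        | mul a b =>
          simp only [Fm.child, Option.bind_some, Option.some.injEq] at hg
          simp only [Fm.depth] at h1
          cases d <;> simp at hg <;> subst hg <;> omega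
    have h1 := ih (ξ ++ [false]) (h0 false)
    have h2 := ih (ξ ++ [true]) (h0 true)
    funext c
    rw [msg]
    simp only [h1, h2, Fin.sum_univ_two]
    rw [desc_snoc, desc_snoc]
    cases hd : f.desc ξ with
    | none =>
      fin_cases c <;> simp [tens]
    | some u =>
      cases u with
      | zero => fin_cases c <;> simp [tens, Fm.eval]
      | one => fin_cases c <;> simp [tens, Fm.eval]
      | var v => fin_cases c <;> simp [tens, Fm.eval]
      | add a b => fin_cases c <;> simp [tens, Fm.eval, Fm.child] <;> ring
      | sub a b => fin_cases c <;> simp [tens, Fm.eval, Fm.child] <;> ring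
      | mul a b => fin_cases c <;> simp [tens, Fm.eval, Fm.child]

/-- MSG. -/
theorem msg : MsgStmt := msg'

end Pool.Agent.WBX.H32
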